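import Pool.Agent.H37.CND.Stmts

/-!
# Row HBP: the Herbrand property
-/

set_option autoImplicit false

namespace Pool.CND

open Finset

namespace HBP18

/-- number of elements of a coset -/
theorem coset_card {G : Type} [Group G] [Fintype G] (N : Subgroup G) (g : G)
    [DecidablePred fun x : G => x ∈ ({x | g⁻¹ * x ∈ N} : Set G)] :
    ((univ.filter (fun x => x ∈ ({x | g⁻¹ * x ∈ N} : Set G))).card : ℤ) = Nat.card N := by
  classical
  have h1 : Nat.card N = (univ.filter (fun x : G => x ∈ N)).card := by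
    rw [Nat.card_eq_fintype_card, Fintype.card_subtype]
  have h2 : (univ.filter (fun x => x ∈ ({x | g⁻¹ * x ∈ N} : Set G))) =
      (univ.filter (fun x : G => x ∈ N)).image (fun x => g * x) := by
    ext x
    rw [mem_filter, mem_image]
    constructor
    · rintro ⟨-, h⟩
      exact ⟨g⁻¹ * x, mem_filter.2 ⟨mem_univ _, h⟩, mul_inv_cancel_left g x⟩
    · rintro ⟨y, hy, rfl⟩
      refine ⟨mem_univ _, ?_⟩
      show g⁻¹ * (g * y) ∈ N
      rw [inv_mul_cancel_left]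
      exact (mem_filter.1 hy).2
  rw [h1, h2, card_image_of_injective _ (mul_right_injective g)]

/-- a group of the form `I / N` of prime order is cyclic -/
theorem cyc {G : Type} [Group G] [Finite G] {p : ℕ} (hp : p.Prime) (N I : Subgroup G) (hNI : N ≤ I)
    (hc : Nat.card I = p * Nat.card N) (hn : ∀ g ∈ I, ∀ n ∈ N, g * n * g⁻¹ ∈ N) (g0 : G)
    (h0 : g0 ∈ I) (h0N : g0 ∉ N) :
    g0 ^ p ∈ N ∧ ∀ g ∈ I, g ∉ N → ∃ a : ℕ, ¬ p ∣ a ∧ (g0 ^ a)⁻¹ * g ∈ N := by
  have hf : Fact p.Prime := ⟨hp⟩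
  have hnorm : (N.subgroupOf I).Normal := by
    refine ⟨fun n hn' g => ?_⟩
    rw [Subgroup.mem_subgroupOf] at hn' ⊢
    exact hn g g.2 n hn'
  have hcard : Nat.card (I ⧸ N.subgroupOf I) = p := by
    have h1 : Nat.card (N.subgroupOf I) * (N.subgroupOf I).index = Nat.card I :=
      Subgroup.card_mul_index _
    have h2 : Nat.card (N.subgroupOf I) = Nat.card N :=
      Nat.card_congr (Subgroup.subgroupOfEquivOfLe hNI).toEquiv
    have h3 : 0 < Nat.card N := Nat.card_pos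
    rw [h2, hc, mul_comm p] at h1
    exact Nat.eq_of_mul_eq_mul_left h3 h1
  have hne : (QuotientGroup.mk (⟨g0, h0⟩ : I) : I ⧸ N.subgroupOf I) ≠ 1 := by
    intro h
    rw [QuotientGroup.eq_one_iff, Subgroup.mem_subgroupOf] at h
    exact h0N h
  have hpow : (QuotientGroup.mk (⟨g0, h0⟩ : I) : I ⧸ N.subgroupOf I) ^ p = 1 := by
    rw [← hcard]
    exact pow_card_eq_one'
  refine ⟨?_, fun g hg hgN => ?_⟩
  · rw [← QuotientGroup.mk_pow, QuotientGroup.eq_one_iff, Subgroup.mem_subgroupOf] at hpow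
    exact hpow
  · have hmem : (QuotientGroup.mk (⟨g, hg⟩ : I) : I ⧸ N.subgroupOf I) ∈
        Submonoid.powers (QuotientGroup.mk (⟨g0, h0⟩ : I) : I ⧸ N.subgroupOf I) :=
      mem_powers_of_prime_card hcard hne
    obtain ⟨a, ha⟩ := hmem
    have ha' : (QuotientGroup.mk (⟨g0, h0⟩ : I) : I ⧸ N.subgroupOf I) ^ a =
      QuotientGroup.mk (⟨g, hg⟩ : I) := ha
    refine ⟨a, ?_, ?_⟩
    · rintro ⟨c, rfl⟩
      rw [pow_mul, hpow, one_pow] at ha'
      have h5 := ha'.symm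
      rw [QuotientGroup.eq_one_iff, Subgroup.mem_subgroupOf] at h5
      exact hgN h5
    · rw [← QuotientGroup.mk_pow, QuotientGroup.eq, Subgroup.mem_subgroupOf] at ha'
      exact ha'

end HBP18

open HBP18

theorem hbp_thm (hFXP : S_FXP) (hRST : S_RST) (hART : S_ART) (hHER : S_HER) (hSAM : S_SAM)
    (hIRR : S_IRR) (hUMW : S_UMW) (hINJ : S_INJ) : S_HBP := by
  classical
  intro p k L G _ _ _ _ _ P ρ W hp hchar hinj hW N I hNI hIW hc hn
  have hUM := hUMW k L G P ρ W hinj hW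
  have hWfix : ∀ g ∈ W, Fixes P (ρ g) := by
    intro g hg
    have : g ∈ ram P ρ 1 := by rw [← hW]; exact hg
    exact this.1
  have hNfix : ∀ n ∈ N, Fixes P (ρ n) := fun n hn' => hWfix n (hIW (hNI hn'))
  obtain ⟨F, hF, Q, hQ⟩ := hFXP k L G P ρ N hinj hNfix
  -- an element outside `N`
  have hex : ∃ g0 ∈ I, g0 ∉ N := by
    by_contra hcon
    push Not at hcon
    have h1 : I = N := le_antisymm hcon hNI
    rw [h1] at hc
    have h3 : 0 < Nat.card N := Nat.card_pos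
    have h4 := hp.two_le
    nlinarith
  obtain ⟨g0, hg0, hg0N⟩ := hex
  obtain ⟨hpowN, hcyc⟩ := cyc hp N I hNI hc hn g0 hg0 hg0N
  -- the restrictions
  have hres : ∀ g ∈ I, ∃ γ : F ≃ₐ[k] F, (∀ x : F, ((γ x : F) : L) = ρ g x) ∧ Fixes Q γ := by
    intro g hg
    refine hRST k L G P ρ N F Q g hF hQ (hn g hg) (fun n hn' => ?_) (hWfix g (hIW hg))
    have := hn g⁻¹ (I.inv_mem hg) n hn'
    rwa [inv_inv] at this
  have hne1 : ∀ g ∈ I, g ∉ N → ∀ γ : F ≃ₐ[k] F, (∀ x : F, ((γ x : F) : L) = ρ g x) → γ ≠ 1 := by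
    intro g _ hgN γ hγ h1
    refine hgN (hART k L G ρ N g hinj fun x hx => ?_)
    have h2 := hγ ⟨x, (hF x).2 hx⟩
    rw [h1, AlgEquiv.one_apply] at h2
    exact h2.symm
  have hher : ∀ g ∈ I, g ∉ N → ∀ γ : F ≃ₐ[k] F, (∀ x : F, ((γ x : F) : L) = ρ g x) → Fixes Q γ →
      sm (fun x => P.b (ρ x)) {x | g⁻¹ * x ∈ N} = Nat.card N * Q.b γ := by
    intro g hg hgN γ hγ hγf
    exact hHER k L G P ρ N F Q g γ hinj hNfix hF hQ hgN (hWfix g (hIW hg)) hγ hγf
      (hne1 g hg hgN γ hγ)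
  obtain ⟨γ, hγ, hγf⟩ := hres g0 hg0
  have hpows : ∀ (j : ℕ) (x : F), (((γ ^ j) x : F) : L) = ρ (g0 ^ j) x := by
    intro j
    induction j with
    | zero =>
      intro x
      rw [pow_zero, pow_zero, map_one, AlgEquiv.one_apply, AlgEquiv.one_apply]
    | succ j ih =>
      intro x
      rw [pow_succ, pow_succ, map_mul, AlgEquiv.mul_apply, AlgEquiv.mul_apply, ih, hγ]
  have hγp : γ ^ p = 1 := by
    apply AlgEquiv.ext
    intro x
    apply Subtype.ext
    rw [hpows, AlgEquiv.one_apply]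
    exact (hF x).1 x.2 _ hpowN
  have hγ1 : γ ≠ 1 := hne1 g0 hg0 hg0N γ hγ
  have hall : ∀ g ∈ I, g ∉ N →
      sm (fun x => P.b (ρ x)) {x | g⁻¹ * x ∈ N} = Nat.card N * Q.b γ := by
    intro g hg hgN
    obtain ⟨a, ha, haN⟩ := hcyc g hg hgN
    obtain ⟨γ', hγ', hγf'⟩ := hres g hg
    have h1 : γ' = γ ^ a := by
      apply AlgEquiv.ext
      intro x
      apply Subtype.ext
      rw [hγ', hpows]
      have h2 : g = g0 ^ a * ((g0 ^ a)⁻¹ * g) := by rw [mul_inv_cancel_left]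
      rw [h2, map_mul, AlgEquiv.mul_apply, (hF x).1 x.2 _ haN]
    rw [hher g hg hgN γ' hγ' hγf', h1, hSAM p k F Q γ a hp hγf hγp hγ1 ha]
  refine ⟨Q.b γ, ?_, hall⟩
  -- positivity
  have hpos : 1 ≤ Q.b γ := by
    have h1 := hall g0 hg0 hg0N
    have h2 : (Nat.card N : ℤ) ≤ sm (fun x => P.b (ρ x)) {x | g0⁻¹ * x ∈ N} := by
      unfold sm
      rw [← coset_card N g0]
      rw [← nsmul_one, ← Finset.sum_const]
      refine Finset.sum_le_sum fun x hx => ?_
      have hx' : g0⁻¹ * x ∈ N := (mem_filter.1 hx).2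
      have hxI : x ∈ I := by
        have : g0 * (g0⁻¹ * x) ∈ I := I.mul_mem hg0 (hNI hx')
        rwa [mul_inv_cancel_left] at this
      refine hUM.pos x (hIW hxI) ?_
      rintro rfl
      rw [mul_one] at hx'
      exact hg0N (by simpa using N.inv_mem hx')
    rw [h1] at h2
    have h3 : (0 : ℤ) < Nat.card N := by
      have : 0 < Nat.card N := Nat.card_pos
      exact_mod_cast this
    nlinarith
  have hu : γ Q.pi ≠ Q.pi := fun h => hγ1 (hINJ k F Q γ Q.pi hγf Q.pi_ne Q.ord_pi h)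
  refine hIRR p k F Q γ Q.pi (Q.b γ) 1 hp hchar hγf Q.pi_ne Q.ord_pi hpos hu ?_ ?_
  · unfold Place.b
    ring
  · rw [pow_one]
    exact hγp

end Pool.CND
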